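import Pool.Agent.helper24.ISL.Spec

/-!
# Row CIR: the circle group
-/

set_option autoImplicit false

namespace Pool.Agent.ISL

open Matrix Filter Topology

theorem CIR_alg {R : Type} [Ring R] [Algebra ℚ R] (a b : R) (h1 : a * a = 0) (h2 : b * b = 0)
    (h3 : a * (b * a) = a) (h4 : b * (a * b) = b) (t : ℚ) (B : R)
    (hB : B = (-2 : ℚ) • a + (2 : ℚ) • b - t • (a * b) + t • (b * a)) :
    B * B = (t ^ 2 - 4) • (a * b + b * a) ∧ B * B * B = (t ^ 2 - 4) • B ∧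
    (1 - a) * (1 + b) * (1 + (t - 1) • a) = 1 - a + b - a * b + (t - 1) • (b * a) := by
  have r1 : ∀ x : R, a * (a * x) = 0 := fun x => by rw [← mul_assoc, h1, zero_mul]
  have r2 : ∀ x : R, b * (b * x) = 0 := fun x => by rw [← mul_assoc, h2, zero_mul]
  have e1 : B * B = (t ^ 2 - 4) • (a * b + b * a) := by
    rw [hB]
    simp only [mul_add, add_mul, mul_sub, sub_mul, smul_mul_assoc, mul_smul_comm, mul_assoc, h1, h2, h3, h4,
      r1, r2, smul_zero, mul_zero]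
    module
  refine ⟨e1, ?_, ?_⟩
  · rw [e1, hB]
    simp only [mul_add, add_mul, mul_sub, smul_mul_assoc, mul_smul_comm, mul_assoc, h1, h2, h3, h4,
      r1, r2, mul_zero]
    module
  · simp only [mul_add, add_mul, mul_sub, sub_mul, smul_mul_assoc, mul_smul_comm, mul_assoc, h1, h2, h3, h4,
      smul_zero, mul_zero, mul_one, one_mul]
    module

/-- The one-parameter group. -/
noncomputable def CIR_G {n : ℕ} (κ : ℝ) (M : Mat n ℝ) (s : ℝ) : Mat n ℝ :=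
  1 + (Real.sin s / √κ) • M + ((1 - Real.cos s) / κ) • (M * M)

theorem CIR_mul {n : ℕ} (κ : ℝ) (hκ : 0 < κ) (M : Mat n ℝ) (hM : M * M * M = -κ • M) (s s' : ℝ) :
    CIR_G κ M s * CIR_G κ M s' = CIR_G κ M (s + s') := by
  have hq : √κ * √κ = κ := Real.mul_self_sqrt hκ.le
  have hq0 : √κ ≠ 0 := (Real.sqrt_pos.mpr hκ).ne'
  obtain ⟨r, hr⟩ : ∃ r : ℝ, r = √κ := ⟨_, rfl⟩
  rw [← hr] at hq hq0
  have h3 : M * (M * M) = -κ • M := by rw [← mul_assoc, hM]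
  have h4 : M * (M * (M * M)) = -κ • (M * M) := by rw [h3, mul_smul_comm]
  unfold CIR_G
  rw [← hr, Real.sin_add, Real.cos_add]
  simp only [mul_add, add_mul, smul_mul_assoc, mul_smul_comm, mul_assoc, mul_one, one_mul, h3, h4]
  rw [← hq]
  match_scalars <;> field_simp <;> ring

theorem CIR_cm_smul {n : ℕ} (c : ℚ) (M : Mat n ℚ) : cm ℝ (c • M) = (c : ℝ) • cm ℝ M := by
  ext i j
  simp [cm_apply]

theorem CIR_conj {n : ℕ} (κ : ℝ) (P Q M : Mat n ℝ) (h : Q * P = 1) (h' : P * Q = 1) (s : ℝ) :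
    CIR_G κ (P * M * Q) s = P * CIR_G κ M s * Q := by
  unfold CIR_G
  have e : P * M * Q * (P * M * Q) = P * (M * M) * Q := by
    calc P * M * Q * (P * M * Q) = P * M * (Q * P) * (M * Q) := by noncomm_ring
      _ = P * (M * M) * Q := by rw [h]; noncomm_ring
  rw [e, mul_add, mul_add, add_mul, add_mul, mul_one, h']
  simp only [mul_smul_comm, smul_mul_assoc]

theorem CIR_zero {n : ℕ} (κ : ℝ) (M : Mat n ℝ) : CIR_G κ M 0 = 1 := by
  simp [CIR_G]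

theorem CIR_pow {n : ℕ} (κ : ℝ) (hκ : 0 < κ) (M : Mat n ℝ) (hM : M * M * M = -κ • M) (ω : ℝ) (j : ℕ) :
    CIR_G κ M ((j : ℕ) * ω) = CIR_G κ M ω ^ j := by
  induction j with
  | zero => simp [CIR_zero]
  | succ j ih =>
    rw [pow_succ, ← ih, CIR_mul κ hκ M hM]
    congr 1
    push_cast
    ring

theorem CIR_cont {n : ℕ} (κ : ℝ) (M : Mat n ℝ) (u v : ℕ → ℝ) (s : ℝ)
    (hu : Tendsto u atTop (𝓝 (Real.sin s))) (hv : Tendsto v atTop (𝓝 (Real.cos s))) :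
    Tendsto (fun k => (1 : Mat n ℝ) + (u k / √κ) • M + ((1 - v k) / κ) • (M * M)) atTop
      (𝓝 (CIR_G κ M s)) := by
  unfold CIR_G
  exact ((tendsto_const_nhds.add ((hu.div_const _).smul_const M))).add
    (((tendsto_const_nhds.sub hv).div_const _).smul_const (M * M))

/-- congruences for the powers -/
theorem CIR_dv {n : ℕ} (S : Set ℕ) (m : ℕ) (g : SL n ℚ) (hg : ∀ i j, Dv S m (g i j - (1 : Mat n ℚ) i j)) (k : ℕ) :
    ∀ i j, Dv S m ((g ^ k) i j - (1 : Mat n ℚ) i j) := by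
  induction k with
  | zero =>
    intro i j
    have e : (g ^ 0) i j - (1 : Mat n ℚ) i j = 0 := by
      rw [pow_zero]
      exact sub_self _
    rw [e]
    exact Dv.zero
  | succ k ih =>
    intro i j
    have e : (g ^ (k + 1)) i j - (1 : Mat n ℚ) i j =
        (∑ l, ((g ^ k) i l) * (g l j - (1 : Mat n ℚ) l j)) + ((g ^ k) i j - (1 : Mat n ℚ) i j) := by
      have e1 : ((g ^ (k + 1) : SL n ℚ) : Mat n ℚ) - 1 =
          ((g ^ k : SL n ℚ) : Mat n ℚ) * ((g : Mat n ℚ) - 1) + (((g ^ k : SL n ℚ) : Mat n ℚ) - 1) := by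
        rw [pow_succ, Matrix.SpecialLinearGroup.coe_mul, mul_sub, mul_one]
        abel
      have e2 := congrFun (congrFun e1 i) j
      rw [Matrix.add_apply, Matrix.mul_apply] at e2
      exact e2
    rw [e]
    refine (Dv.sum fun l _ => ?_).add (ih i j)
    have h1 : Dv S 1 ((g ^ k) i l) := by
      have e3 : (g ^ k) i l = ((g ^ k) i l - (1 : Mat n ℚ) i l) + (1 : Mat n ℚ) i l := by ring
      rw [e3]
      refine (ih i l).one.add ?_
      rw [Matrix.one_apply]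
      split_ifs
      · exact_mod_cast Dv.int (S := S) 1
      · exact Dv.zero
    have h2 := h1.mul (hg l j)
    rwa [one_mul] at h2

theorem CIR_dvp (p : ℕ) (hp : p.Prime) : Dv {p} 1 (1 / (p : ℚ)) := by
  intro q hq hS
  have : Fact q.Prime := ⟨hq⟩
  have hne : q ≠ p := fun h => hS (by rw [h]; rfl)
  have e : padicNorm q (p : ℚ) = 1 := by
    rw [padicNorm.nat_eq_one_iff]
    intro h
    exact hne ((Nat.prime_dvd_prime_iff_eq hq hp).mp h)
  rw [padicNorm.div, e]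
  simp

theorem CIR_dv_mul {n : ℕ} (S : Set ℕ) (M N : Mat n ℚ) (hM : ∀ i j, Dv S 1 (M i j)) (hN : ∀ i j, Dv S 1 (N i j)) :
    ∀ i j, Dv S 1 ((M * N) i j) := by
  intro i j
  rw [Matrix.mul_apply]
  refine Dv.sum fun l _ => ?_
  have h := (hM i l).mul (hN l j)
  rwa [one_mul] at h

theorem CIR_dv_tr {n : ℕ} (S : Set ℕ) (i j : Fin n) (hij : i ≠ j) (x : ℚ) (hx : Dv S 1 x) :
    ∀ k l, Dv S 1 (((Matrix.SpecialLinearGroup.transvection hij x : SL n ℚ) : Mat n ℚ) k l) := by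
  intro k l
  rw [Matrix.SpecialLinearGroup.transvection_coe, Matrix.add_apply, Matrix.one_apply, Matrix.single_apply]
  refine Dv.add ?_ ?_
  · split_ifs
    · exact_mod_cast Dv.int (S := S) 1
    · exact Dv.zero
  · split_ifs
    · exact hx
    · exact Dv.zero

theorem CIR (h1 : CLO_stmt) (h2 : UG_stmt) (h3 : PIG_stmt) (h4 : ROT_stmt) : CIR_stmt := by
  intro n hn H hH p hp
  clear h1
  obtain ⟨ω, hω1, hω2, hω3⟩ := h4 p hp
  obtain ⟨t, ht⟩ : ∃ t : ℚ, t = 1 / (p : ℚ) := ⟨_, rfl⟩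
  have hp2 : (2 : ℚ) ≤ p := by exact_mod_cast hp.two_le
  have ht0 : 0 < t := by rw [ht]; positivity
  have ht1 : t ≤ 1 / 2 := by
    rw [ht]
    exact one_div_le_one_div_of_le (by norm_num) hp2
  have htr : (t : ℝ) = 1 / (p : ℝ) := by rw [ht]; push_cast; rfl
  obtain ⟨κ, hκ⟩ : ∃ κ : ℚ, κ = 4 - t ^ 2 := ⟨_, rfl⟩
  have hκ0 : 0 < κ := by rw [hκ]; nlinarith
  have hκr : (κ : ℝ) = 4 - (t : ℝ) ^ 2 := by rw [hκ]; push_cast; rfl
  have hκr0 : (0 : ℝ) < κ := by exact_mod_cast hκ0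
  -- the matrices
  obtain ⟨i0, hi0⟩ : ∃ i : Fin n, i.val = 0 := ⟨⟨0, by omega⟩, rfl⟩
  obtain ⟨i1, hi1⟩ : ∃ i : Fin n, i.val = 1 := ⟨⟨1, by omega⟩, rfl⟩
  have h01 : i0 ≠ i1 := by
    intro h
    rw [h, hi1] at hi0
    exact absurd hi0 one_ne_zero
  obtain ⟨a, ha⟩ : ∃ a : Mat n ℚ, a = Matrix.single i0 i1 1 := ⟨_, rfl⟩
  obtain ⟨b, hb⟩ : ∃ b : Mat n ℚ, b = Matrix.single i1 i0 1 := ⟨_, rfl⟩
  have r1 : a * a = 0 := by rw [ha, Matrix.single_mul_single_of_ne _ _ _ _ h01.symm]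
  have r2 : b * b = 0 := by rw [hb, Matrix.single_mul_single_of_ne _ _ _ _ h01]
  have r3 : a * (b * a) = a := by
    rw [ha, hb, Matrix.single_mul_single_same, Matrix.single_mul_single_same]
    simp
  have r4 : b * (a * b) = b := by
    rw [ha, hb, Matrix.single_mul_single_same, Matrix.single_mul_single_same]
    simp
  obtain ⟨B, hB⟩ : ∃ B : Mat n ℚ, B = (-2 : ℚ) • a + (2 : ℚ) • b - t • (a * b) + t • (b * a) := ⟨_, rfl⟩
  obtain ⟨hB2, hB3, hB4⟩ := CIR_alg a b r1 r2 r3 r4 t B hB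
  obtain ⟨ρ, hρ⟩ : ∃ ρ : SL n ℚ, ρ = Matrix.SpecialLinearGroup.transvection h01 (-1) *
      Matrix.SpecialLinearGroup.transvection h01.symm 1 *
      Matrix.SpecialLinearGroup.transvection h01 (t - 1) := ⟨_, rfl⟩
  have hρ1 : (ρ : Mat n ℚ) = 1 - a + b - a * b + (t - 1) • (b * a) := by
    rw [← hB4, hρ, Matrix.SpecialLinearGroup.coe_mul, Matrix.SpecialLinearGroup.coe_mul,
      Matrix.SpecialLinearGroup.transvection_coe, Matrix.SpecialLinearGroup.transvection_coe,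
      Matrix.SpecialLinearGroup.transvection_coe, ← hb]
    have e1 : Matrix.single i0 i1 (-1 : ℚ) = -a := by
      rw [ha]
      ext k l
      simp only [Matrix.single_apply, Matrix.neg_apply]
      split_ifs <;> simp
    have e2 : Matrix.single i0 i1 (t - 1) = (t - 1) • a := by
      rw [ha]
      ext k l
      simp only [Matrix.single_apply, Matrix.smul_apply]
      split_ifs <;> simp
    rw [e1, e2, ← sub_eq_add_neg]
  have hρ2 : (ρ : Mat n ℚ) = 1 + (1 / 2 : ℚ) • B + (1 / (2 * (2 + t)) : ℚ) • (B * B) := by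
    rw [hρ1, hB2, hB]
    have e : (1 / (2 * (2 + t)) : ℚ) • ((t ^ 2 - 4) • (a * b + b * a)) = ((t - 2) / 2 : ℚ) • (a * b + b * a) := by
      rw [smul_smul]
      congr 1
      field_simp
      ring
    rw [e]
    module
  have hBne : B ≠ 0 := by
    intro h
    have e := congrFun (congrFun hB i0) i1
    rw [h, ha, hb] at e
    simp [h01, h01.symm] at e
  have hρdv : ∀ i j, Dv {p} 1 (ρ i j) := by
    rw [hρ]
    have d1 : Dv {p} 1 (-1 : ℚ) := by exact_mod_cast Dv.int (S := {p}) (-1)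
    have d2 : Dv {p} 1 (1 : ℚ) := by exact_mod_cast Dv.int (S := {p}) 1
    have d3 : Dv {p} 1 (t - 1) := by
      rw [ht]
      exact (CIR_dvp p hp).sub d2
    intro i j
    exact CIR_dv_mul _ _ _ (CIR_dv_mul _ _ _ (CIR_dv_tr _ _ _ h01 _ d1) (CIR_dv_tr _ _ _ h01.symm _ d2))
      (CIR_dv_tr _ _ _ h01 _ d3) i j
  obtain ⟨x, hx⟩ := hH ρ
  -- the real matrices
  obtain ⟨M, hM⟩ : ∃ M : Mat n ℝ, M = cm ℝ B := ⟨_, rfl⟩
  have hM3 : M * M * M = -(κ : ℝ) • M := by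
    rw [hM, ← map_mul, ← map_mul, hB3, CIR_cm_smul, hκr]
    congr 1
    push_cast
    ring
  have hsin : √(κ : ℝ) = 2 * Real.sin ω := by
    have e : (κ : ℝ) = (2 * Real.sin ω) ^ 2 := by
      have e1 := Real.sin_sq_add_cos_sq ω
      rw [hκr, htr, ← hω1]
      nlinarith
    rw [e, Real.sqrt_sq (by linarith)]
  have hGω : CIR_G (κ : ℝ) M ω = cm ℝ (ρ : Mat n ℚ) := by
    rw [hρ2, map_add, map_add, map_one, CIR_cm_smul, CIR_cm_smul, map_mul, ← hM]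
    unfold CIR_G
    have e1 : Real.sin ω / √(κ : ℝ) = ((1 / 2 : ℚ) : ℝ) := by
      rw [hsin]
      push_cast
      field_simp
    have e2 : (1 - Real.cos ω) / (κ : ℝ) = ((1 / (2 * (2 + t)) : ℚ) : ℝ) := by
      have e3 : Real.cos ω = (t : ℝ) / 2 := by rw [htr, ← hω1]; ring
      have ht0r : (0 : ℝ) < t := by exact_mod_cast ht0
      have e4 : (4 : ℝ) - (t : ℝ) ^ 2 ≠ 0 := by rw [← hκr]; exact hκr0.ne'
      rw [hκr, e3]
      push_cast
      rw [div_eq_div_iff e4 (by positivity)]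
      ring
    rw [e1, e2]
  obtain ⟨A, hA⟩ : ∃ A : Mat n ℚ, A = (x : Mat n ℚ) * B * ((x⁻¹ : SL n ℚ) : Mat n ℚ) := ⟨_, rfl⟩
  have hx1 : ((x⁻¹ : SL n ℚ) : Mat n ℚ) * (x : Mat n ℚ) = 1 := by
    rw [← Matrix.SpecialLinearGroup.coe_mul, inv_mul_cancel, Matrix.SpecialLinearGroup.coe_one]
  have hx2 : (x : Mat n ℚ) * ((x⁻¹ : SL n ℚ) : Mat n ℚ) = 1 := by
    rw [← Matrix.SpecialLinearGroup.coe_mul, mul_inv_cancel, Matrix.SpecialLinearGroup.coe_one]
  have hAB : ((x⁻¹ : SL n ℚ) : Mat n ℚ) * A * (x : Mat n ℚ) = B := by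
    rw [hA]
    calc ((x⁻¹ : SL n ℚ) : Mat n ℚ) * ((x : Mat n ℚ) * B * ((x⁻¹ : SL n ℚ) : Mat n ℚ)) * (x : Mat n ℚ)
        = (((x⁻¹ : SL n ℚ) : Mat n ℚ) * (x : Mat n ℚ)) * B * (((x⁻¹ : SL n ℚ) : Mat n ℚ) * (x : Mat n ℚ)) := by
          noncomm_ring
      _ = B := by rw [hx1, one_mul, mul_one]
  have hAr : cm ℝ A = cm ℝ (x : Mat n ℚ) * M * cm ℝ ((x⁻¹ : SL n ℚ) : Mat n ℚ) := by
    rw [hA, map_mul, map_mul, hM]
  have hxr1 : cm ℝ ((x⁻¹ : SL n ℚ) : Mat n ℚ) * cm ℝ (x : Mat n ℚ) = 1 := by rw [← map_mul, hx1, map_one]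
  have hxr2 : cm ℝ (x : Mat n ℚ) * cm ℝ ((x⁻¹ : SL n ℚ) : Mat n ℚ) = 1 := by rw [← map_mul, hx2, map_one]
  refine ⟨A, κ, ?_, hκ0, ?_, ?_⟩
  · intro h
    rw [h, mul_zero, zero_mul] at hAB
    exact hBne hAB.symm
  · have e : A * A * A = (x : Mat n ℚ) * (B * B * B) * ((x⁻¹ : SL n ℚ) : Mat n ℚ) := by
      rw [hA]
      calc (x : Mat n ℚ) * B * ((x⁻¹ : SL n ℚ) : Mat n ℚ) * ((x : Mat n ℚ) * B * ((x⁻¹ : SL n ℚ) : Mat n ℚ)) *
          ((x : Mat n ℚ) * B * ((x⁻¹ : SL n ℚ) : Mat n ℚ))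
          = (x : Mat n ℚ) * B * (((x⁻¹ : SL n ℚ) : Mat n ℚ) * (x : Mat n ℚ)) * B *
            (((x⁻¹ : SL n ℚ) : Mat n ℚ) * (x : Mat n ℚ)) * B * ((x⁻¹ : SL n ℚ) : Mat n ℚ) := by noncomm_ring
        _ = (x : Mat n ℚ) * (B * B * B) * ((x⁻¹ : SL n ℚ) : Mat n ℚ) := by rw [hx1]; noncomm_ring
    rw [e, hB3, hA, mul_smul_comm, smul_mul_assoc]
    congr 1
    rw [hκ]
    ring
  · intro s
    -- for each m, eps
    have key : ∀ m : ℕ, 0 < m → ∀ ε : ℚ, 0 < ε → ∃ g ∈ closure (cs ℝ '' U H {p} false m ε),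
        (g : Mat n ℝ) = CIR_G (κ : ℝ) (cm ℝ A) s := by
      intro m hm ε hε
      obtain ⟨m', ε', hm', hε', hU⟩ := (h2 n {p} false m ε hm hε).2.2 x
      obtain ⟨r, hr, hrd⟩ := h3 n {p} ρ hρdv m' hm'
      have hj : ∀ k : ℕ, ∃ j : ℕ, |Real.sin ((r * j : ℕ) * ω) - Real.sin s| < 1 / ((k : ℝ) + 1) ∧
          |Real.cos ((r * j : ℕ) * ω) - Real.cos s| < 1 / ((k : ℝ) + 1) :=
        fun k => hω3 r hr s _ (by positivity)
      choose j hj1 hj2 using hj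
      have hz : Tendsto (fun k : ℕ => 1 / ((k : ℝ) + 1)) atTop (𝓝 0) := tendsto_one_div_add_atTop_nhds_zero_nat
      have hs : Tendsto (fun k : ℕ => Real.sin ((r * j k : ℕ) * ω)) atTop (𝓝 (Real.sin s)) := by
        rw [tendsto_iff_norm_sub_tendsto_zero]
        exact squeeze_zero (fun k => norm_nonneg _) (fun k => (hj1 k).le) hz
      have hc : Tendsto (fun k : ℕ => Real.cos ((r * j k : ℕ) * ω)) atTop (𝓝 (Real.cos s)) := by
        rw [tendsto_iff_norm_sub_tendsto_zero]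
        exact squeeze_zero (fun k => norm_nonneg _) (fun k => (hj2 k).le) hz
      have hlim := CIR_cont (κ : ℝ) (cm ℝ A) _ _ s hs hc
      have hcl := (Matrix.SpecialLinearGroup.isClosedEmbedding_val (n := Fin n) (R := ℝ)).isClosedMap
        (closure (cs ℝ '' U H {p} false m ε)) isClosed_closure
      have hmem := hcl.mem_of_tendsto hlim (Filter.Eventually.of_forall fun k => by
        refine ⟨cs ℝ (x * ρ ^ (r * j k) * x⁻¹), subset_closure ⟨_, ⟨?_, ?_⟩, rfl⟩, ?_⟩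
        · rw [← conj_pow]
          exact H.pow_mem hx _
        · apply hU
          refine ⟨?_, fun h => absurd h (by simp)⟩
          rw [pow_mul]
          exact CIR_dv {p} m' (ρ ^ r) hrd (j k)
        · have e : (1 : Mat n ℝ) + (Real.sin ((r * j k : ℕ) * ω) / √(κ : ℝ)) • cm ℝ A +
              ((1 - Real.cos ((r * j k : ℕ) * ω)) / (κ : ℝ)) • (cm ℝ A * cm ℝ A) =
              CIR_G (κ : ℝ) (cm ℝ A) ((r * j k : ℕ) * ω) := rfl
          rw [cs_coe, e, hAr, CIR_conj _ _ _ _ hxr1 hxr2, CIR_pow _ hκr0 _ hM3, hGω, ← map_pow, ← map_mul, ← map_mul]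
          rfl)
      obtain ⟨g, hg, hg'⟩ := hmem
      exact ⟨g, hg, hg'⟩
    obtain ⟨g, _, hg2⟩ := key 1 one_pos 1 one_pos
    refine ⟨g, ?_, ?_⟩
    · intro m hm ε hε
      obtain ⟨g', hg1', hg2'⟩ := key m hm ε hε
      have e : g' = g := Subtype.ext (hg2'.trans hg2.symm)
      rwa [e] at hg1'
    · rw [hg2, map_mul]
      rfl

end Pool.Agent.ISL
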