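import Pool.Agent.helper24.ISL.Spec

/-!
# Row EE
-/

set_option autoImplicit false

namespace Pool.Agent.ISL

open Matrix Filter Topology

theorem EE (h1 : SEQ_stmt) (h2 : CYC_stmt) : EE_stmt := by
  intro n hn H hH
  obtain ⟨M, hM, hdet, hcyc⟩ := h2 n hn
  obtain ⟨g, hg⟩ : ∃ g : SL n ℚ, (g : Mat n ℚ) = M * M := ⟨⟨M * M, hdet⟩, rfl⟩
  obtain ⟨x, hx⟩ := hH g
  have hx1 : ((x⁻¹ : SL n ℚ) : Mat n ℚ) * (x : Mat n ℚ) = 1 := by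
    rw [← Matrix.SpecialLinearGroup.coe_mul, inv_mul_cancel, Matrix.SpecialLinearGroup.coe_one]
  have hx2 : (x : Mat n ℚ) * ((x⁻¹ : SL n ℚ) : Mat n ℚ) = 1 := by
    rw [← Matrix.SpecialLinearGroup.coe_mul, mul_inv_cancel, Matrix.SpecialLinearGroup.coe_one]
  refine ⟨x * g * x⁻¹, hx, fun θ y hθ hy => ?_⟩
  have hθ' : θ ᵥ* (x : Mat n ℚ) ≠ 0 := by
    intro h
    apply hθ
    have e : θ = (θ ᵥ* (x : Mat n ℚ)) ᵥ* ((x⁻¹ : SL n ℚ) : Mat n ℚ) := by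
      rw [Matrix.vecMul_vecMul, hx2, Matrix.vecMul_one]
    rw [e, h, Matrix.zero_vecMul]
  have hy' : ((x⁻¹ : SL n ℚ) : Mat n ℚ) *ᵥ y ≠ 0 := by
    intro h
    apply hy
    have e : y = (x : Mat n ℚ) *ᵥ (((x⁻¹ : SL n ℚ) : Mat n ℚ) *ᵥ y) := by
      rw [Matrix.mulVec_mulVec, hx2, Matrix.one_mulVec]
    rw [e, h, Matrix.mulVec_zero]
  obtain ⟨j, hj⟩ := hcyc _ _ hθ' hy'
  obtain ⟨J, hJ⟩ := h1 n hn
    (fun j => (θ ᵥ* (x : Mat n ℚ)) ⬝ᵥ ((M ^ j) *ᵥ (((x⁻¹ : SL n ℚ) : Mat n ℚ) *ᵥ y))) (by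
      intro j
      rw [pow_add, hM, mul_add, mul_one, ← pow_succ, Matrix.add_mulVec, dotProduct_add]) ⟨j, hj⟩
  refine ⟨J, fun j hj => ?_⟩
  have h3 := hJ (2 * j) (by omega)
  have e : (((x * g * x⁻¹) ^ j : SL n ℚ) : Mat n ℚ) =
      (x : Mat n ℚ) * M ^ (2 * j) * ((x⁻¹ : SL n ℚ) : Mat n ℚ) := by
    rw [conj_pow, Matrix.SpecialLinearGroup.coe_mul, Matrix.SpecialLinearGroup.coe_mul,
      Matrix.SpecialLinearGroup.coe_pow, hg, pow_mul, pow_two]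
  rw [e, ← Matrix.mulVec_mulVec, ← Matrix.mulVec_mulVec, Matrix.dotProduct_mulVec]
  exact h3

end Pool.Agent.ISL
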