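import Pool.Agent.helper24.ISL.Spec

/-!
# Row IZ
-/

set_option autoImplicit false

namespace Pool.Agent.ISL

theorem IZ_den (q : ℕ) (hq : q.Prime) (y : ℚ) (h : padicNorm q y ≤ 1) : ¬ q ∣ y.den := by
  intro hd
  have : Fact q.Prime := ⟨hq⟩
  have h1 : ¬ q ∣ y.num.natAbs := by
    intro h2
    have h3 := Nat.dvd_gcd h2 hd
    rw [y.reduced] at h3
    exact hq.one_lt.ne' (Nat.dvd_one.mp h3)
  have h2 : padicNorm q (y.num : ℚ) = 1 := by
    rw [padicNorm.int_eq_one_iff]
    intro h3
    exact h1 (Int.natCast_dvd.mp h3)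
  have h3 : padicNorm q (y.den : ℚ) < 1 := by
    rw [padicNorm.nat_lt_one_iff]
    exact hd
  have h4 : padicNorm q (y.den : ℚ) ≠ 0 := by
    apply padicNorm.nonzero
    exact_mod_cast y.den_ne_zero
  have h5 : 0 < padicNorm q (y.den : ℚ) := lt_of_le_of_ne (padicNorm.nonneg _) h4.symm
  have h6 : padicNorm q y = 1 / padicNorm q (y.den : ℚ) := by
    rw [← h2, ← padicNorm.div, Rat.num_div_den]
  rw [h6, div_le_one h5] at h
  linarith

theorem IZ : IZ_stmt := by
  intro m hm x
  have hm0 : (m : ℚ) ≠ 0 := by exact_mod_cast hm.ne'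
  obtain ⟨y, hy⟩ : ∃ y : ℚ, y = x / m := ⟨_, rfl⟩
  have hx : x = m * y := by rw [hy]; field_simp
  have key : ∀ (S : Set ℕ), Dv S m x → ∀ q : ℕ, q.Prime → q ∉ S → ¬ q ∣ y.den := by
    intro S hS q hq hqS
    have : Fact q.Prime := ⟨hq⟩
    apply IZ_den q hq
    have h1 := hS q hq hqS
    have h2 : 0 < padicNorm q (m : ℚ) := lt_of_le_of_ne (padicNorm.nonneg _) (padicNorm.nonzero hm0).symm
    rw [hy, padicNorm.div, div_le_one h2]
    exact h1
  refine ⟨fun h => ⟨y.num, ?_⟩, fun p hp h => ?_⟩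
  · have h1 : y.den = 1 := by
      by_contra hne
      obtain ⟨q, hq, hd⟩ := Nat.exists_prime_and_dvd hne
      exact key ∅ h q hq (by simp) hd
    rw [hx]
    congr 1
    conv_lhs => rw [← Rat.num_div_den y, h1]
    simp
  · have h1 : y.den = p ^ y.den.primeFactorsList.length := by
      apply Nat.eq_prime_pow_of_unique_prime_dvd y.den_ne_zero
      intro q hq hd
      by_contra hne
      exact key {p} h q hq (by simpa using hne) hd
    refine ⟨y.den.primeFactorsList.length, y.num, ?_⟩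
    have h2 : ((p : ℚ) ^ y.den.primeFactorsList.length) = (y.den : ℚ) := by
      conv_rhs => rw [h1]
      push_cast
      rfl
    have h3 : (y.den : ℚ) * y = y.num := Rat.den_mul_eq_num y
    rw [h2, hx, ← h3]
    ring

end Pool.Agent.ISL
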