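import Pool.Agent.helper24.ISL.Spec

/-!
# Row NP
-/

set_option autoImplicit false

namespace Pool.Agent.ISL

open Matrix Filter Topology

theorem NP (h1 : KEY_stmt) (h2 : NG_stmt) (h3 : TR_stmt) : NP_stmt := by
  intro n hn H hH p _ S hS
  obtain ⟨K, hK, hKc, hKn⟩ := h2 n ℚ_[p] H S false
  obtain ⟨v, φ, hv, hφ, hφv, ρ, hρ, hz⟩ := h3 n hn H hH p S hS
  have hp : Nat.Prime p := Fact.out
  have e : K = ⊤ := by
    refine h1 n ℚ_[p] H K hn hH hKc hKn ⟨(p : ℚ), by exact_mod_cast hp.ne_zero, ?_⟩ v φ hv hφ hφv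
      ⟨ρ, hρ, fun z hz' => ?_⟩
    · rw [Rat.cast_natCast]
      exact Padic.norm_p_lt_one
    · obtain ⟨g, hg, hg'⟩ := hz z hz'
      refine ⟨g, ?_, hg'⟩
      rw [← SetLike.mem_coe, hK]
      exact hg
  rw [← hK, e]
  rfl

end Pool.Agent.ISL
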