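import Pool.Agent.helper24.ISL.Spec

/-!
# Row SPN: orbits of negative powers span
-/

set_option autoImplicit false

namespace Pool.Agent.ISL

open Matrix Filter Topology

theorem SPN_gen {n : ℕ} (P Q : Mat n ℚ) (h1 : P * Q = 1) (h2 : Q * P = 1)
    (hP : ∀ θ y : Fin n → ℚ, θ ≠ 0 → y ≠ 0 → ∃ i : ℕ, θ ⬝ᵥ ((P ^ i) *ᵥ y) ≠ 0)
    (v : Fin n → ℚ) (hv : v ≠ 0) (J : ℕ) :
    Submodule.span ℚ (Set.range fun j : ℕ => (Q ^ (J + j)) *ᵥ v) = ⊤ := by
  by_contra hne
  obtain ⟨R, hR⟩ : ∃ R, R = Submodule.span ℚ (Set.range fun j : ℕ => (Q ^ (J + j)) *ᵥ v) := ⟨_, rfl⟩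
  rw [← hR] at hne
  obtain ⟨f, hf, hfR⟩ := Submodule.exists_le_ker_of_lt_top R (lt_top_iff_ne_top.mpr hne)
  -- the map given by Q
  have hmap : R.map Q.mulVecLin ≤ R := by
    rw [hR, Submodule.map_span, Submodule.span_le]
    rintro _ ⟨_, ⟨j, rfl⟩, rfl⟩
    apply Submodule.subset_span
    refine ⟨j + 1, ?_⟩
    simp only [Matrix.mulVecLin_apply, Matrix.mulVec_mulVec]
    rw [← pow_succ', add_assoc]
  have hinj : Function.Injective Q.mulVecLin := by
    intro a b hab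
    simp only [Matrix.mulVecLin_apply] at hab
    have e := congrArg (fun w => P *ᵥ w) hab
    simpa [Matrix.mulVec_mulVec, h1] using e
  have heq : R.map Q.mulVecLin = R := by
    apply Submodule.eq_of_le_of_finrank_eq hmap
    exact (Submodule.equivMapOfInjective Q.mulVecLin hinj R).finrank_eq.symm
  have hPR : ∀ y ∈ R, P *ᵥ y ∈ R := by
    intro y hy
    rw [← heq] at hy
    obtain ⟨z, hz, rfl⟩ := hy
    simpa [Matrix.mulVec_mulVec, h1] using hz
  have hy0 : (Q ^ J) *ᵥ v ∈ R := by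
    rw [hR]
    exact Submodule.subset_span ⟨0, by simp⟩
  have hpow : ∀ i : ℕ, (P ^ i) *ᵥ ((Q ^ J) *ᵥ v) ∈ R := by
    intro i
    induction i with
    | zero => simpa using hy0
    | succ i ih =>
      have := hPR _ ih
      rwa [Matrix.mulVec_mulVec, ← pow_succ'] at this
  have hne2 : (Q ^ J) *ᵥ v ≠ 0 := by
    intro h
    apply hv
    have e : v = (P ^ J * Q ^ J) *ᵥ v := by
      have hc : Commute P Q := by rw [commute_iff_eq, h1, h2]
      rw [← hc.mul_pow, h1, one_pow, Matrix.one_mulVec]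
    rw [e, ← Matrix.mulVec_mulVec, h, Matrix.mulVec_zero]
  have hfθ : ∀ w : Fin n → ℚ, f w = (fun i => f (Pi.single i 1)) ⬝ᵥ w := by
    intro w
    have e : w = ∑ i, w i • (Pi.single i (1 : ℚ) : Fin n → ℚ) := by
      rw [← Finset.univ_sum_single w]
      refine Finset.sum_congr rfl fun i _ => ?_
      ext k
      simp [Pi.single_apply]
    conv_lhs => rw [e]
    rw [map_sum, dotProduct]
    refine Finset.sum_congr rfl fun i _ => ?_
    rw [map_smul, smul_eq_mul, mul_comm]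
  obtain ⟨i, hi⟩ := hP (fun i => f (Pi.single i 1)) _ (by
    intro h
    apply hf
    ext w
    simp only [LinearMap.comp_apply, LinearMap.zero_apply]
    rw [hfθ, h, zero_dotProduct]) hne2
  apply hi
  rw [← hfθ]
  exact hfR (hpow i)

theorem SPN_cv {n : ℕ} (F : Type) [Field F] [CharZero F] (f : ℕ → Fin n → ℚ)
    (h : Submodule.span ℚ (Set.range f) = ⊤) :
    Submodule.span F (Set.range fun j : ℕ => cv F (f j)) = ⊤ := by
  rw [eq_top_iff]
  have key : ∀ w : Fin n → ℚ, cv F w ∈ Submodule.span F (Set.range fun j : ℕ => cv F (f j)) := by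
    intro w
    have hw : w ∈ Submodule.span ℚ (Set.range f) := by rw [h]; trivial
    induction hw using Submodule.span_induction with
    | mem x hx =>
      obtain ⟨j, rfl⟩ := hx
      exact Submodule.subset_span ⟨j, rfl⟩
    | zero =>
      have e : cv F (0 : Fin n → ℚ) = 0 := by
        ext i
        simp [cv]
      rw [e]
      exact Submodule.zero_mem _
    | add x y _ _ hx hy =>
      have e : cv F (x + y) = cv F x + cv F y := by
        ext i
        simp [cv]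
      rw [e]
      exact Submodule.add_mem _ hx hy
    | smul a x _ hx =>
      have e : cv F (a • x) = (a : F) • cv F x := by
        ext i
        simp [cv]
      rw [e]
      exact Submodule.smul_mem _ _ hx
  intro w _
  have e : w = ∑ i, w i • cv F (Pi.single i (1 : ℚ) : Fin n → ℚ) := by
    conv_lhs => rw [← Finset.univ_sum_single w]
    refine Finset.sum_congr rfl fun i _ => ?_
    ext k
    simp only [cv, Pi.single_apply, Pi.smul_apply, smul_eq_mul]
    split_ifs <;> simp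
  rw [e]
  exact Submodule.sum_mem _ fun i _ => Submodule.smul_mem _ _ (key _)

theorem SPN : SPN_stmt := by
  intro n e he F _ _ v φ hv hφ J
  obtain ⟨P, hP⟩ : ∃ P : Mat n ℚ, P = (e : Mat n ℚ) := ⟨_, rfl⟩
  obtain ⟨Q, hQ⟩ : ∃ Q : Mat n ℚ, Q = ((e⁻¹ : SL n ℚ) : Mat n ℚ) := ⟨_, rfl⟩
  have h1 : P * Q = 1 := by
    rw [hP, hQ, ← Matrix.SpecialLinearGroup.coe_mul, mul_inv_cancel, Matrix.SpecialLinearGroup.coe_one]
  have h2 : Q * P = 1 := by
    rw [hP, hQ, ← Matrix.SpecialLinearGroup.coe_mul, inv_mul_cancel, Matrix.SpecialLinearGroup.coe_one]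
  have h3 : ∀ k : ℕ, (((e ^ k)⁻¹ : SL n ℚ) : Mat n ℚ) = Q ^ k := by
    intro k
    rw [← inv_pow, Matrix.SpecialLinearGroup.coe_pow, hQ]
  have h4 : ∀ θ y : Fin n → ℚ, θ ≠ 0 → y ≠ 0 → ∃ i : ℕ, θ ⬝ᵥ ((P ^ i) *ᵥ y) ≠ 0 := by
    intro θ y hθ hy
    obtain ⟨j, hj⟩ := he θ y hθ hy
    refine ⟨j, ?_⟩
    have := hj j le_rfl
    rwa [Matrix.SpecialLinearGroup.coe_pow, ← hP] at this
  constructor
  · apply SPN_cv F (fun j => (((e ^ (J + j))⁻¹ : SL n ℚ) : Mat n ℚ) *ᵥ v)
    simp only [h3]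
    exact SPN_gen P Q h1 h2 h4 v hv J
  · apply SPN_cv F (fun j => φ ᵥ* (((e ^ (J + j))⁻¹ : SL n ℚ) : Mat n ℚ))
    simp only [h3]
    have h5 := SPN_gen Pᵀ Qᵀ (by rw [← Matrix.transpose_mul, h2, Matrix.transpose_one])
      (by rw [← Matrix.transpose_mul, h1, Matrix.transpose_one]) (by
        intro θ y hθ hy
        obtain ⟨i, hi⟩ := h4 y θ hy hθ
        refine ⟨i, ?_⟩
        rw [← Matrix.transpose_pow, Matrix.mulVec_transpose, dotProduct_comm, ← Matrix.dotProduct_mulVec]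
        exact hi) φ hφ J
    have e : (fun j : ℕ => (Qᵀ ^ (J + j)) *ᵥ φ) = fun j : ℕ => φ ᵥ* Q ^ (J + j) := by
      funext j
      rw [← Matrix.transpose_pow, Matrix.mulVec_transpose]
    rw [e] at h5
    exact h5

end Pool.Agent.ISL
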