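import Pool.Agent.helper18.ISL.CYC
import Pool.Agent.helper18.ISL.DOM
import Pool.Agent.helper2.ISL.UG
import Pool.Agent.helper23.ISL.ROT
import Pool.Agent.helper24.ISL.CIR
import Pool.Agent.helper24.ISL.EE
import Pool.Agent.helper24.ISL.IZ
import Pool.Agent.helper24.ISL.NP
import Pool.Agent.helper24.ISL.SPN
import Pool.Agent.helper25.ISL.TW
import Pool.Agent.helper29.ISL.LM
import Pool.Agent.helper29.ISL.SEL
import Pool.Agent.helper37.ISL.NQ
import Pool.Agent.helper38.ISL.NG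
import Pool.Agent.helper39.ISL.KEY
import Pool.Agent.helper58.ISL.FI
import Pool.Agent.helper58.ISL.TG
import Pool.Agent.helper64.ISL.NI
import Pool.Agent.helper66.ISL.SEQ
import Pool.Agent.helper67.ISL.CLO
import Pool.Agent.helper67.ISL.MAIN
import Pool.Agent.helper78.ISL.TRR
import Pool.Agent.helper79.ISL.TR
import Pool.Agent.helper8.ISL.PRD
import Pool.Agent.helper89.ISL.PIG
import Pool.Agent.helper95.ISL.DD

/-!
# Subgroups of `SL_n(ℚ)` meeting every conjugacy class: assembly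
-/

set_option autoImplicit false

namespace Pool.Agent.ISL

theorem EE_all : EE_stmt := EE (SEQ SEL DOM) CYC

theorem KEY_all : KEY_stmt := KEY (TG TW) EE_all DD LM SPN

theorem NG_all : NG_stmt := NG UG

theorem NI_all : NI_stmt := NI EE_all DD LM KEY_all NG_all (CIR CLO UG PIG ROT)

theorem NP_all : NP_stmt := NP KEY_all NG_all (TR CLO)

theorem NQ_all : NQ_stmt := NQ KEY_all NG_all (TRR CLO NI_all)

theorem MAIN_all : MAIN_stmt := MAIN NI_all NP_all NQ_all (PRD CLO) IZ (FI TW)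

/-- `H` meets every conjugacy class of every group `SL_n(ℤ[1/N])`, also under conjugation by `Γ(m)`. -/
theorem classes (n : ℕ) (hn : 2 ≤ n) (H : Subgroup (SL n ℚ)) (hH : MeetsAll H) (m : ℕ) (hm : 0 < m)
    (g : SL n ℚ) : ∃ γ : SL n ℤ, (∀ i j, (m : ℤ) ∣ γ i j - (1 : Mat n ℤ) i j) ∧
      Matrix.SpecialLinearGroup.map (Int.castRingHom ℚ) γ * g *
        (Matrix.SpecialLinearGroup.map (Int.castRingHom ℚ) γ)⁻¹ ∈ H := by
  obtain ⟨x, hx⟩ := hH g
  obtain ⟨h, hh, γ, hγ, hg⟩ := (MAIN_all n hn H hH).1 m hm x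
  refine ⟨γ, hγ, ?_⟩
  have h1 := H.mul_mem (H.mul_mem (H.inv_mem hh) hx) hh
  have e : h⁻¹ * (x * g * x⁻¹) * h = Matrix.SpecialLinearGroup.map (Int.castRingHom ℚ) γ * g *
      (Matrix.SpecialLinearGroup.map (Int.castRingHom ℚ) γ)⁻¹ := by
    rw [hg]
    group
  rwa [e] at h1

end Pool.Agent.ISL
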