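import Pool.Agent.helper24.ISL.Spec2

/-!
# Row CJ: rational conjugates of `H`
-/

set_option autoImplicit false

namespace Pool.Agent.ISL

open Matrix

/-- The map `g ↦ X g Y` for `X Y = 1 = Y X`. -/
noncomputable def CJ_f {n : ℕ} (X Y : Mat n ℚ) (h1 : X * Y = 1) (h2 : Y * X = 1) : SL n ℚ →* SL n ℚ where
  toFun g := ⟨X * (g : Mat n ℚ) * Y, by
    have h := congrArg Matrix.det h1
    rw [Matrix.det_mul, Matrix.det_one] at h
    rw [Matrix.det_mul, Matrix.det_mul, Matrix.SpecialLinearGroup.det_coe, mul_one, h]⟩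
  map_one' := by
    apply Subtype.ext
    simp [h1]
  map_mul' a b := by
    apply Subtype.ext
    simp only [Matrix.SpecialLinearGroup.coe_mul]
    calc X * ((a : Mat n ℚ) * (b : Mat n ℚ)) * Y = X * (a : Mat n ℚ) * 1 * (b : Mat n ℚ) * Y := by
          simp only [mul_assoc, mul_one]
      _ = X * (a : Mat n ℚ) * (Y * X) * (b : Mat n ℚ) * Y := by rw [h2]
      _ = X * (a : Mat n ℚ) * Y * (X * (b : Mat n ℚ) * Y) := by simp only [mul_assoc]

theorem CJ_coe {n : ℕ} (X Y : Mat n ℚ) (h1 : X * Y = 1) (h2 : Y * X = 1) (g : SL n ℚ) :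
    ((CJ_f X Y h1 h2 g : SL n ℚ) : Mat n ℚ) = X * (g : Mat n ℚ) * Y := rfl

theorem CJ_inv {n : ℕ} (X Y : Mat n ℚ) (h1 : X * Y = 1) (h2 : Y * X = 1) (g : SL n ℚ) :
    CJ_f X Y h1 h2 (CJ_f Y X h2 h1 g) = g := by
  apply Subtype.ext
  have e : ((CJ_f X Y h1 h2 (CJ_f Y X h2 h1 g) : SL n ℚ) : Mat n ℚ) = X * (Y * (g : Mat n ℚ) * X) * Y := rfl
  have e2 : X * (Y * (g : Mat n ℚ) * X) * Y = (X * Y) * (g : Mat n ℚ) * (X * Y) := by
    simp only [mul_assoc]
  rw [h1, one_mul, mul_one] at e2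
  exact e.trans e2

theorem CJ : CJ_stmt := by
  intro n H X Y h1 hH
  have h2 : Y * X = 1 := mul_eq_one_comm.mp h1
  refine ⟨H.comap (CJ_f X Y h1 h2), ?_, ?_, ?_⟩
  · intro g
    obtain ⟨x, hx⟩ := hH (CJ_f X Y h1 h2 g)
    refine ⟨CJ_f Y X h2 h1 x, ?_⟩
    rw [Subgroup.mem_comap, map_mul, map_mul, map_inv, CJ_inv]
    exact hx
  · intro h
    rw [eq_top_iff]
    intro g _
    have h3 : CJ_f Y X h2 h1 g ∈ H.comap (CJ_f X Y h1 h2) := by
      rw [h]
      exact Subgroup.mem_top _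
    rw [Subgroup.mem_comap, CJ_inv] at h3
    exact h3
  · intro g h hh hg
    rw [Subgroup.mem_comap]
    have e : CJ_f X Y h1 h2 g = h := Subtype.ext hg.symm
    rw [e]
    exact hh

end Pool.Agent.ISL
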