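import Mathlib

/-!
# Subgroups of `SL_n(ℚ)` meeting every conjugacy class: definitions
-/

set_option autoImplicit false

namespace Pool.Agent.ISL

open Matrix

/-- The group `SL_n(F)`. -/
abbrev SL (n : ℕ) (F : Type) [CommRing F] : Type := Matrix.SpecialLinearGroup (Fin n) F

/-- `n × n` matrices. -/
abbrev Mat (n : ℕ) (F : Type) : Type := Matrix (Fin n) (Fin n) F

/-- `H` contains a conjugate of every element of `SL_n(ℚ)`. -/
def MeetsAll {n : ℕ} (H : Subgroup (SL n ℚ)) : Prop := ∀ g : SL n ℚ, ∃ x : SL n ℚ, x * g * x⁻¹ ∈ H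

/-- A rational matrix as a matrix over `F`. -/
noncomputable def cm (F : Type) [Field F] [CharZero F] {n : ℕ} : Mat n ℚ →+* Mat n F :=
  (Rat.castHom F).mapMatrix

/-- An element of `SL_n(ℚ)` as an element of `SL_n(F)`. -/
noncomputable def cs (F : Type) [Field F] [CharZero F] {n : ℕ} : SL n ℚ →* SL n F :=
  Matrix.SpecialLinearGroup.map (Rat.castHom F)

/-- A rational vector as a vector over `F`. -/
noncomputable def cv (F : Type) [Field F] [CharZero F] {n : ℕ} (v : Fin n → ℚ) : Fin n → F :=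
  fun i => ((v i : ℚ) : F)

/-- The rank one matrix `v ⊗ φ`. -/
def rk {n : ℕ} {F : Type} [CommRing F] (v φ : Fin n → F) : Mat n F := Matrix.vecMulVec v φ

/-- The matrix `M` is (the matrix of) an element of `K`. -/
def InK {n : ℕ} {F : Type} [CommRing F] (K : Subgroup (SL n F)) (M : Mat n F) : Prop :=
  ∃ k ∈ K, (k : Mat n F) = M

/-- `K` is normalised by `H`. -/
def Nrm {n : ℕ} {F : Type} [Field F] [CharZero F] (H : Subgroup (SL n ℚ)) (K : Subgroup (SL n F)) : Prop :=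
  ∀ h ∈ H, ∀ k ∈ K, cs F h * k * (cs F h)⁻¹ ∈ K

/-- `H` contains, for every `i`, the matrix with the eigenvector `c` for the eigenvalue `a ^ ((n - 1) i)` and the
eigenspace `ker θ` for the eigenvalue `a ^ (-i)`; here `θ(c) = 1`. -/
def Dil {n : ℕ} (H : Subgroup (SL n ℚ)) (a : ℚ) (c θ : Fin n → ℚ) : Prop :=
  θ ⬝ᵥ c = 1 ∧ ∀ i : ℕ, ∃ h ∈ H, (h : Mat n ℚ) = (a ^ i)⁻¹ • (1 + (a ^ (n * i) - 1) • rk c θ) ∧
    ((h⁻¹ : SL n ℚ) : Mat n ℚ) = a ^ i • (1 + ((a ^ (n * i))⁻¹ - 1) • rk c θ)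

/-- For all nonzero rational `θ`, `y`: `θ(e ^ j y) ≠ 0` for all large `j`. -/
def Expd {n : ℕ} (e : SL n ℚ) : Prop := ∀ θ y : Fin n → ℚ, θ ≠ 0 → y ≠ 0 →
  ∃ J : ℕ, ∀ j : ℕ, J ≤ j → θ ⬝ᵥ (((e ^ j : SL n ℚ) : Mat n ℚ) *ᵥ y) ≠ 0

/-- `x ∈ m ℤ_(q)` for all primes `q ∉ S`. -/
def Dv (S : Set ℕ) (m : ℕ) (x : ℚ) : Prop := ∀ q : ℕ, q.Prime → q ∉ S → padicNorm q x ≤ padicNorm q m

/-- `g` is congruent to `1` modulo `m` at all primes outside `S`, and if `b` it is close to `1` at the real place. -/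
def Cg {n : ℕ} (S : Set ℕ) (b : Bool) (m : ℕ) (ε : ℚ) (g : SL n ℚ) : Prop :=
  (∀ i j, Dv S m (g i j - (1 : Mat n ℚ) i j)) ∧ (b = true → ∀ i j, |g i j - (1 : Mat n ℚ) i j| < ε)

/-- The elements of `H` with this property. -/
def U {n : ℕ} (H : Subgroup (SL n ℚ)) (S : Set ℕ) (b : Bool) (m : ℕ) (ε : ℚ) : Set (SL n ℚ) :=
  {h | h ∈ H ∧ Cg S b m ε h}

/-- The elements of `SL_n(F)` that are limits, for every `m` and `ε`, of elements of `U H S b m ε`. -/
def NS (F : Type) [NormedField F] [CharZero F] {n : ℕ} (H : Subgroup (SL n ℚ)) (S : Set ℕ) (b : Bool) :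
    Set (SL n F) :=
  {g | ∀ m : ℕ, 0 < m → ∀ ε : ℚ, 0 < ε → g ∈ closure (cs F '' U H S b m ε)}

/-! ### basic facts -/

section
variable {S : Set ℕ} {m m' : ℕ} {x y : ℚ}

theorem Dv.add (hx : Dv S m x) (hy : Dv S m y) : Dv S m (x + y) := by
  intro q hq hS
  have : Fact q.Prime := ⟨hq⟩
  exact padicNorm.nonarchimedean.trans (max_le (hx q hq hS) (hy q hq hS))

theorem Dv.neg (hx : Dv S m x) : Dv S m (-x) := by
  intro q hq hS
  have : Fact q.Prime := ⟨hq⟩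
  rw [padicNorm.neg]
  exact hx q hq hS

theorem Dv.sub (hx : Dv S m x) (hy : Dv S m y) : Dv S m (x - y) := by
  rw [sub_eq_add_neg]
  exact hx.add hy.neg

theorem Dv.zero : Dv S m 0 := by
  intro q hq _
  have : Fact q.Prime := ⟨hq⟩
  rw [padicNorm.zero]
  exact padicNorm.nonneg _

theorem Dv.sum {ι : Type} {s : Finset ι} {f : ι → ℚ} (h : ∀ i ∈ s, Dv S m (f i)) : Dv S m (∑ i ∈ s, f i) := by
  classical
  induction s using Finset.induction_on with
  | empty => simpa using Dv.zero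
  | insert a s ha ih =>
    rw [Finset.sum_insert ha]
    exact (h a (Finset.mem_insert_self a s)).add (ih fun i hi => h i (Finset.mem_insert_of_mem hi))

theorem Dv.mul (hx : Dv S m x) (hy : Dv S m' y) : Dv S (m * m') (x * y) := by
  intro q hq hS
  have : Fact q.Prime := ⟨hq⟩
  rw [padicNorm.mul, Nat.cast_mul, padicNorm.mul]
  exact mul_le_mul (hx q hq hS) (hy q hq hS) (padicNorm.nonneg _) (padicNorm.nonneg _)

theorem Dv.int (a : ℤ) : Dv S 1 (a : ℚ) := by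
  intro q hq _
  have : Fact q.Prime := ⟨hq⟩
  rw [Nat.cast_one, padicNorm.one]
  exact padicNorm.of_int a

theorem Dv.nat_mul (m a : ℕ) : Dv S m ((m : ℚ) * a) := by
  intro q hq _
  have : Fact q.Prime := ⟨hq⟩
  rw [padicNorm.mul]
  calc padicNorm q (m : ℚ) * padicNorm q (a : ℚ) ≤ padicNorm q (m : ℚ) * 1 :=
        mul_le_mul_of_nonneg_left (by exact_mod_cast padicNorm.of_nat a) (padicNorm.nonneg _)
    _ = padicNorm q (m : ℚ) := mul_one _

/-- `Dv` for a divisor. -/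
theorem Dv.mono (hx : Dv S m x) (h : m' ∣ m) : Dv S m' x := by
  intro q hq hS
  have : Fact q.Prime := ⟨hq⟩
  obtain ⟨a, rfl⟩ := h
  refine (hx q hq hS).trans ?_
  have := Dv.nat_mul (S := S) m' a q hq hS
  rw [Nat.cast_mul]
  exact this

theorem Dv.one (h : Dv S m x) : Dv S 1 x := h.mono (one_dvd m)

theorem Dv.subset {S' : Set ℕ} (hx : Dv S m x) (h : S ⊆ S') : Dv S' m x :=
  fun q hq hS => hx q hq fun h' => hS (h h')

/-- The `q`-adic norm of a rational number. -/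
theorem Dv.norm (hx : Dv S m x) (q : ℕ) [Fact q.Prime] (hS : q ∉ S) : ‖(x : ℚ_[q])‖ ≤ ‖(m : ℚ_[q])‖ := by
  have h := hx q Fact.out hS
  rw [Padic.eq_padicNorm]
  have h2 : ‖(m : ℚ_[q])‖ = (padicNorm q (m : ℚ) : ℚ) := by
    have := Padic.eq_padicNorm (p := q) (m : ℚ)
    rwa [Rat.cast_natCast] at this
  rw [h2]
  exact_mod_cast h

end

theorem cs_apply {F : Type} [Field F] [CharZero F] {n : ℕ} (g : SL n ℚ) (i j : Fin n) :
    (cs F g) i j = ((g i j : ℚ) : F) := rfl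

theorem cs_coe {F : Type} [Field F] [CharZero F] {n : ℕ} (g : SL n ℚ) :
    ((cs F g : SL n F) : Mat n F) = cm F (g : Mat n ℚ) := rfl

theorem cm_apply {F : Type} [Field F] [CharZero F] {n : ℕ} (M : Mat n ℚ) (i j : Fin n) :
    (cm F M) i j = ((M i j : ℚ) : F) := rfl

end Pool.Agent.ISL
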