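import Pool.Agent.helper24.ISL.All
import Pool.Agent.helper24.ISL.CJ
import Pool.Agent.helper44.ISL.ZD
import Pool.Agent.helper31.ISL.BS
import Pool.Agent.helper13.ISL.EX

/-!
# Subgroups of `SL_n(ℚ)` meeting every conjugacy class: final form
-/

set_option autoImplicit false

namespace Pool.Agent.ISL

open Matrix

theorem fin (n : ℕ) (hn : 2 ≤ n) (H : Subgroup (SpecialLinearGroup (Fin n) ℚ))
    (hH : ∀ g : SpecialLinearGroup (Fin n) ℚ, ∃ x : SpecialLinearGroup (Fin n) ℚ, x * g * x⁻¹ ∈ H) :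
    (∀ m : ℕ, 0 < m → ∀ g : SpecialLinearGroup (Fin n) ℚ, ∃ h ∈ H, ∃ γ : SpecialLinearGroup (Fin n) ℤ,
      (∀ i j, (m : ℤ) ∣ γ i j - (1 : Matrix (Fin n) (Fin n) ℤ) i j) ∧
      g = h * SpecialLinearGroup.map (Int.castRingHom ℚ) γ) ∧
    (∀ p : ℕ, p.Prime → ∀ m : ℕ, 0 < m → ∀ ε : ℚ, 0 < ε → ∀ g : SpecialLinearGroup (Fin n) ℚ,
      ∃ h ∈ H, ∃ γ : SpecialLinearGroup (Fin n) ℚ,
      (∃ k : ℕ, ∀ i j, ∃ a : ℤ, (p : ℚ) ^ k * (γ i j - (1 : Matrix (Fin n) (Fin n) ℚ) i j) = m * a) ∧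
      (∀ i j, |γ i j - (1 : Matrix (Fin n) (Fin n) ℚ) i j| < ε) ∧ g = h * γ) ∧
    (H ≠ ⊤ →
      (H.comap (SpecialLinearGroup.map (Int.castRingHom ℚ) :
        SpecialLinearGroup (Fin n) ℤ →* SpecialLinearGroup (Fin n) ℚ)).index = 0 ∧
      (3 ≤ n → ∀ e φ e' φ' : Fin n → ℚ, ∀ t ∈ H, ∀ t' ∈ H,
        (t : Matrix (Fin n) (Fin n) ℚ) = 1 + vecMulVec e φ →
        (t' : Matrix (Fin n) (Fin n) ℚ) = 1 + vecMulVec e' φ' → t ≠ 1 →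
        (∀ c : ℚ, vecMulVec e' φ' ≠ c • vecMulVec e φ) →
        5 ≤ |((φ ⬝ᵥ e') * (φ' ⬝ᵥ e)).num|)) := by
  obtain ⟨h1, h2, h3⟩ := MAIN_all n hn H hH
  refine ⟨h1, h2, fun hne => ⟨h3 hne, ?_⟩⟩
  intro hn3 e φ e' φ' t ht t' ht' hte hte' ht1 hc
  refine EX MAIN_all ZD CJ BS n hn3 H hH hne e φ e' φ' ⟨t, ht, hte⟩ ⟨t', ht', hte'⟩ ?_ hc
  intro h0
  apply ht1
  apply Subtype.ext
  have e1 : (t : Matrix (Fin n) (Fin n) ℚ) = 1 := by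
    rw [hte]
    have h0' : vecMulVec e φ = 0 := h0
    rw [h0', add_zero]
  exact e1

end Pool.Agent.ISL
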