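import Pool.Agent.helper24.ISL.Defs

/-!
# Subgroups of `SL_n(ℚ)` meeting every conjugacy class: rows (MP_512a69)

GOAL (`MAIN_stmt`). Let `n ≥ 2` and let `H ≤ SL_n(ℚ)` meet every conjugacy class. Then `SL_n(ℚ) = H Γ(m)` for every
congruence subgroup `Γ(m)` of `SL_n(ℤ)`; for every prime `p` and `m`, `ε` every `g` is `h γ`, `h ∈ H`,
`γ ∈ SL_n(ℤ[1/p])`, `γ ≡ 1` modulo `m`, `|γ - 1| < ε`; and if `H` is proper, `H ∩ SL_n(ℤ)` has infinite index in `SL_n(ℤ)`.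

IDEA. KEY: for `F = ℝ` or `ℚ_p` a closed subgroup `K` of `SL_n(F)` normalised by `H` that contains `1 + z v ⊗ φ` for small
`z` (`v`, `φ` rational, `φ(v) = 0`) is everything: `H` contains a conjugate `d` of `diag(a^(n-1), 1/a, .., 1/a)`, `|a|_F < 1`, with
centre `c` and axis `ker θ`, and `d^i (1 + a^(ni) Y) d^(-i) → 1 + (Yc - θ(Yc) c) ⊗ θ`. This is applied to the groups of limits in
`SL_n(F)` of elements of `H` that are congruent to `1` (and close to `1`) at all other places but one.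

RULES.  Row `XX`: file `Pool/Agent/<seat>/ISL/XX.lean`, `import Pool.Agent.helper24.ISL.Spec`, `namespace Pool.Agent.ISL`,
`theorem XX (h1 : YY_stmt) ... : XX_stmt` (only the statements named after `From`, in this order), auxiliary lemmas prefixed
`XX_`. No `convert`, no `congr!`, no straight double quotes. Basic lemmas on `Dv`, `cs`, `cm` are in Defs.lean. `SL_n(F)` is a
topological group in Mathlib (`Mathlib/Topology/Algebra/Group/Matrix.lean`, closed embedding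
`Matrix.SpecialLinearGroup.isClosedEmbedding_val`).
-/

set_option autoImplicit false

namespace Pool.Agent.ISL

open Matrix Filter Topology

/-! ## Part A: linear algebra -/

/-- **TW** (short, medium). `Matrix.SpecialLinearGroup.diagonal_transvection_induction'`; with `E i j x` the transvections,
`diag2n hij a = E i j a * E j i (-a⁻¹) * E i j a * (E i j (-1) * E j i 1 * E i j (-1))`. -/
def TW_stmt : Prop := ∀ (n : ℕ) (F : Type) [Field F] (K : Subgroup (SL n F)), 2 ≤ n →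
  (∀ (i j : Fin n) (hij : i ≠ j) (x : F), Matrix.SpecialLinearGroup.transvection hij x ∈ K) → K = ⊤

/-- **TG** (medium). From TW. `K` contains all `1 + v ⊗ φ`, `φ(v) = 0`. (i) `θ(w) = 0`, `ψ(c) = 0`, `ψ(w) = 0`: `1 + w ⊗ ψ` is the commutator
`(1 + w⊗θ)(1 + c⊗ψ)(1 - w⊗θ)(1 - c⊗ψ)`. (ii) general: `α = θ(v)`, `v = αc + w`, `β = φ(c)`, `φ = βθ + ψ`. If `α = 0`, then `ψ(w) = 0` and
`1 + w ⊗ φ = (1 + βw⊗θ)(1 + w⊗ψ)`. If `α ≠ 0`, let `u = -w/α`, `L = 1 + u⊗θ ∈ K`: `L v = αc`, and `φ L⁻¹` vanishes on `αc`, so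
`L (1 + v⊗φ) L⁻¹ = 1 + c ⊗ (α φ L⁻¹) ∈ K`. -/
def TG_stmt : Prop := ∀ (n : ℕ) (F : Type) [Field F] (K : Subgroup (SL n F)), 2 ≤ n →
  ∀ c θ : Fin n → F, θ ⬝ᵥ c = 1 → (∀ w : Fin n → F, θ ⬝ᵥ w = 0 → InK K (1 + rk w θ)) →
  (∀ ψ : Fin n → F, ψ ⬝ᵥ c = 0 → InK K (1 + rk c ψ)) → K = ⊤

/-- **SEL** (short, medium). `l ∈ (1, 2)` by the intermediate value theorem; `x ^ n > x + 1` for real `x > l`
(`x^n - l^n > x - l`). For `μ`: `‖μ‖^n ≤ ‖μ‖ + 1`, so `‖μ‖ ≤ l`; if `‖μ‖ = l` then `‖μ + 1‖ = ‖μ‖ + 1`, so `μ` is real and `≥ 0`. -/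
def SEL_stmt : Prop := ∀ n : ℕ, 2 ≤ n → ∃ l : ℝ, 1 < l ∧ l ^ n = l + 1 ∧
  ∀ μ : ℂ, μ ^ n = μ + 1 → μ ≠ (l : ℂ) → ‖μ‖ < l

/-- **DOM** (medium). Induction on the degree, `P = (X - μ) Q`: with `t j = ∑ Q.coeff i * s (j + i)` the given sum is
`t (j+1) - μ t j`, so `x j = t j / l^j` satisfies `x (j+1) = (μ/l) x j + y j`, `y j → L / l`, `|μ/l| < 1`, hence `x j → L / (l - μ)`. (Let `E` be the
shift on sequences, a linear map; the sum is `(aeval E P s) j`.) -/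
def DOM_stmt : Prop := ∀ (l : ℝ) (P : Polynomial ℂ), 0 < l → P.Monic → (∀ μ : ℂ, P.eval μ = 0 → ‖μ‖ < l) →
  ∀ (s : ℕ → ℂ) (L : ℂ),
  Tendsto (fun j : ℕ => (∑ i ∈ Finset.range (P.natDegree + 1), P.coeff i * s (j + i)) / (l : ℂ) ^ j) atTop (𝓝 L) →
  Tendsto (fun j : ℕ => s j / (l : ℂ) ^ j) atTop (𝓝 (L / P.eval (l : ℂ)))

/-- **SEQ** (medium). From SEL, DOM. `P = ∑_(i<n) l^(n-1-i) X^i - 1`, `(X - l) P = X^n - X - 1`, `P(l) = n l^(n-1) - 1 ≠ 0`; so the roots `μ` of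
`P` satisfy `μ^n = μ + 1`, `μ ≠ l`. `u j = ∑ P.coeff i * s (j + i)` satisfies `u (j+1) = l u j`, so `u j / l^j = u 0`, and `u 0 ≠ 0`: the
minimal polynomial of `l` over `ℚ` is `X^n - X - 1` (`Polynomial.X_pow_sub_X_sub_one_irreducible_rat`), of degree `n`, and
`u 0 = s 0 (l^(n-1) - 1) + ∑_(1≤i<n) s i l^(n-1-i)`, not all of `s 0, .., s (n-1)` being `0`. DOM: `s j / l^j → u 0 / P(l) ≠ 0`. -/
def SEQ_stmt : Prop := ∀ n : ℕ, 2 ≤ n → ∀ s : ℕ → ℚ, (∀ j, s (j + n) = s (j + 1) + s j) → (∃ j, s j ≠ 0) →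
  ∃ J : ℕ, ∀ j : ℕ, J ≤ j → s j ≠ 0

/-- **CYC** (medium). The field `K = ℚ[X]/(X^n - X - 1)` (`AdjoinRoot`, irreducible by
`Polynomial.X_pow_sub_X_sub_one_irreducible_rat`), its power basis with `n` elements, `M = Algebra.leftMulMatrix` of the root
(reindexed to `Fin n`). `M^n = M + 1`; `det M` is the norm of the root, `± 1`, so `det (M * M) = 1`. If `θ(M^j y) = 0` for all `j` then
`θ(Z y) = 0` for the matrices `Z` of all elements `z` of `K`, and every vector is of the form `Z y` (`y ≠ 0`, `K` a field), so `θ = 0`. -/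
def CYC_stmt : Prop := ∀ n : ℕ, 2 ≤ n → ∃ M : Mat n ℚ, M ^ n = M + 1 ∧ (M * M).det = 1 ∧
  ∀ θ y : Fin n → ℚ, θ ≠ 0 → y ≠ 0 → ∃ j : ℕ, θ ⬝ᵥ ((M ^ j) *ᵥ y) ≠ 0

/-- **EE** (short). From SEQ, CYC. `e = x M² x⁻¹ ∈ H`; `θ(e^j y) = (θx)(M^(2j) (x⁻¹ y))`, SEQ for `s j = (θx)(M^j (x⁻¹y))`. -/
def EE_stmt : Prop := ∀ n : ℕ, 2 ≤ n → ∀ H : Subgroup (SL n ℚ), MeetsAll H → ∃ e ∈ H, Expd e

/-- **DD** (short, medium). With `e₀` the first standard vector: `g = a⁻¹ (1 + (a^n - 1) e₀ ⊗ e₀)` is diagonal of determinant `1`;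
`x g x⁻¹ ∈ H`, `c = x e₀`, `θ = e₀ x⁻¹`, `h = (x g x⁻¹)^i`. -/
def DD_stmt : Prop := ∀ n : ℕ, 2 ≤ n → ∀ H : Subgroup (SL n ℚ), MeetsAll H → ∀ a : ℚ, a ≠ 0 →
  ∃ c θ : Fin n → ℚ, Dil H a c θ

/-- **LM** (limits; medium). Let `h_i ∈ H` be the element of `Dil`, `E = 1 - c⊗θ`, `t = a^(ni)`: `h_i = a^(-i) (E + t c⊗θ)`,
`h_i⁻¹ = a^i (E + t⁻¹ c⊗θ)`. So `h_i (1 + t Z) h_i⁻¹ = 1 + t E Z E + t² c⊗θ Z E + E Z c⊗θ + t c⊗θ Z c⊗θ → 1 + E Y c ⊗ θ`, and similarly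
`h_i⁻¹ (1 + t Z) h_i → 1 + c ⊗ θ Y E`. `K` is closed; the determinant of the limit is `1` (use `isClosedEmbedding_val`: the image of
`K` in the matrices is closed). -/
def LM_stmt : Prop := ∀ (n : ℕ) (F : Type) [NormedField F] [CharZero F] (H : Subgroup (SL n ℚ)) (K : Subgroup (SL n F)),
  2 ≤ n → IsClosed (K : Set (SL n F)) → Nrm H K → ∀ (a : ℚ) (c θ : Fin n → ℚ), a ≠ 0 → ‖(a : F)‖ < 1 → Dil H a c θ →
  ∀ (Y : Mat n F) (k : ℕ → SL n F) (Z : ℕ → Mat n F), (∀ i, k i ∈ K) →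
  (∀ᶠ i in atTop, (k i : Mat n F) = 1 + ((a : F) ^ (n * i)) • Z i) → Tendsto Z atTop (𝓝 Y) →
  InK K (1 + rk (Y *ᵥ cv F c - (cv F θ ⬝ᵥ (Y *ᵥ cv F c)) • cv F c) (cv F θ)) ∧
  InK K (1 + rk (cv F c) (cv F θ ᵥ* Y - ((cv F θ ᵥ* Y) ⬝ᵥ cv F c) • cv F θ))

/-- **SPN** (medium). `W_k = span {e^i v, i < k}` over `ℚ` is increasing with union everything (a `θ` vanishing on all `e^i v` is `0`), so
`W_k = ⊤` for some `k`. If a rational `θ` vanishes on all `e^(-J-j) v`, then `θ e^(-J-k)` vanishes on `e^i v`, `i ≤ k`, so it is `0`. Hence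
the rational span is everything; a rational basis is a basis over `F`. Same for covectors (a vector `y` with `φ e^i y = 0` for all
`i` is `0`). -/
def SPN_stmt : Prop := ∀ (n : ℕ) (e : SL n ℚ), Expd e → ∀ (F : Type) [Field F] [CharZero F] (v φ : Fin n → ℚ),
  v ≠ 0 → φ ≠ 0 → ∀ J : ℕ,
  Submodule.span F (Set.range fun j : ℕ => cv F ((((e ^ (J + j))⁻¹ : SL n ℚ) : Mat n ℚ) *ᵥ v)) = ⊤ ∧
  Submodule.span F (Set.range fun j : ℕ => cv F (φ ᵥ* (((e ^ (J + j))⁻¹ : SL n ℚ) : Mat n ℚ))) = ⊤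

/-- **KEY** (medium, long). From TG, EE, DD, LM, SPN. `c`, `θ` from DD, `e` from EE. For `h ∈ H` and small `z`: `K ∋ 1 + z (hv)⊗(φh⁻¹)`.
For all `z`: LM with `Y = Z i = z (hv)⊗(φh⁻¹)` and `k i` the element for `a^(ni) z` (small for large `i`; otherwise `k i = 1`): `K ∋ 1 + z φ(h⁻¹c) E(hv)⊗θ`
and `K ∋ 1 + z θ(hv) c⊗E(φh⁻¹)`, where `E w = w - θ(w) c`, `E ψ = ψ - ψ(c) θ`. First: `φ(e^j c) ≠ 0` for `j ≥ J`; take `h = e^(-j)`: `K` contains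
`1 + z E(e^(-j) v)⊗θ` for all `z`, and the `w` in `ker θ` with `1 + w⊗θ ∈ K` are an additive group; by SPN it is `ker θ` (`E w = w` there).
Second: `θ(e^j v) ≠ 0` for `j ≥ J'`, `h = e^j`, the covectors `φ e^(-j)` span. TG for `cv c`, `cv θ`. -/
def KEY_stmt : Prop := ∀ (n : ℕ) (F : Type) [NormedField F] [CharZero F] (H : Subgroup (SL n ℚ)) (K : Subgroup (SL n F)),
  2 ≤ n → MeetsAll H → IsClosed (K : Set (SL n F)) → Nrm H K → (∃ a : ℚ, a ≠ 0 ∧ ‖(a : F)‖ < 1) →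
  ∀ v φ : Fin n → ℚ, v ≠ 0 → φ ≠ 0 → φ ⬝ᵥ v = 0 →
  (∃ ρ : ℝ, 0 < ρ ∧ ∀ z : F, ‖z‖ < ρ → InK K (1 + z • rk (cv F v) (cv F φ))) → K = ⊤

/-! ## Part B: groups of limits -/

/-- **CLO** (short). The topology of `SL_n(F)` is induced from the matrices (product topology), `mem_closure_iff`. -/
def CLO_stmt : Prop := ∀ (n : ℕ) (F : Type) [NormedField F] [CharZero F] (V : Set (SL n ℚ)) (g : SL n F),
  g ∈ closure (cs F '' V) ↔ ∀ δ : ℝ, 0 < δ → ∃ h ∈ V, ∀ i j, ‖((h i j : ℚ) : F) - g i j‖ < δ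

/-- **UG** (medium). `gh - 1 = (g-1)(h-1) + (g-1) + (h-1)`. `g⁻¹ - 1 = -g⁻¹ (g-1)`, `g⁻¹` the adjugate: its entries are `Dv S 1` if those of `g`
are, and they are bounded by a constant if the entries of `g` are bounded by `2`. `x g x⁻¹ - 1 = x (g-1) x⁻¹`: let `D ≥ 1` be a common
denominator of `x` and `x⁻¹`, `m' = m D²`. -/
def UG_stmt : Prop := ∀ (n : ℕ) (S : Set ℕ) (b : Bool) (m : ℕ) (ε : ℚ), 0 < m → 0 < ε →
  Cg S b m ε (1 : SL n ℚ) ∧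
  (∃ m' : ℕ, ∃ ε' : ℚ, 0 < m' ∧ 0 < ε' ∧ ∀ g h : SL n ℚ, Cg S b m' ε' g → Cg S b m' ε' h →
    Cg S b m ε (g * h) ∧ Cg S b m ε g⁻¹) ∧
  ∀ x : SL n ℚ, ∃ m' : ℕ, ∃ ε' : ℚ, 0 < m' ∧ 0 < ε' ∧ ∀ g : SL n ℚ, Cg S b m' ε' g → Cg S b m ε (x * g * x⁻¹)

/-- **NG** (medium). From UG. `NS F H S b` is the intersection of the closures; product, inverse and conjugation by `cs F x`, `x ∈ H`, are
continuous (`map_mem_closure₂`, `map_mem_closure`) and map `U H S b m' ε'` to `U H S b m ε`. -/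
def NG_stmt : Prop := ∀ (n : ℕ) (F : Type) [NormedField F] [CharZero F] (H : Subgroup (SL n ℚ)) (S : Set ℕ) (b : Bool),
  ∃ K : Subgroup (SL n F), (K : Set (SL n F)) = NS F H S b ∧ IsClosed (K : Set (SL n F)) ∧ Nrm H K

/-- **PIG** (medium). Every `x` with `Dv S 1 x` satisfies `Dv S m (x - r)` for some `r ∈ {0, .., m - 1}`: `x = a/b`, the primes dividing `b` are in
`S`, let `m₂` be the largest divisor of `m` prime to `b`, `r b ≡ a` modulo `m₂`; for `q ∉ S` the `q`-adic norms of `m` and `m₂` are equal. By the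
pigeonhole principle there are `i < i'` with `Dv S m` for the entries of `g^i - g^i'`; multiply by the inverse of `g^i` (its entries
are `Dv S 1`). -/
def PIG_stmt : Prop := ∀ (n : ℕ) (S : Set ℕ) (g : SL n ℚ), (∀ i j, Dv S 1 (g i j)) → ∀ m : ℕ, 0 < m →
  ∃ r : ℕ, 0 < r ∧ ∀ i j, Dv S m ((g ^ r) i j - (1 : Mat n ℚ) i j)

/-- **ROT** (medium). `ω = arccos (1/(2p))`. `t j = 2 cos (j ω)` is rational, `t (j+1) = t j / p - t (j-1)`, with `p`-adic norm `p^j` for `j ≥ 1`,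
so `t j ≠ 2` and `ω` is not a rational multiple of `π`. Density of the multiples of `r ω` modulo `2π`:
`dense_addSubgroupClosure_pair_iff` or the corresponding result for `AddCircle`; natural `j` instead of integers: `denseRange_zsmul_iff_nsmul`
or similar. -/
def ROT_stmt : Prop := ∀ p : ℕ, p.Prime → ∃ ω : ℝ, 2 * Real.cos ω = 1 / (p : ℝ) ∧ 0 < Real.sin ω ∧
  ∀ r : ℕ, 0 < r → ∀ s ε : ℝ, 0 < ε → ∃ j : ℕ,
    |Real.sin ((r * j : ℕ) * ω) - Real.sin s| < ε ∧ |Real.cos ((r * j : ℕ) * ω) - Real.cos s| < ε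

/-- **CIR** (medium, long). From CLO, UG, PIG, ROT. `t = 1/p`, `κ = 4 - t²`, `ρ ∈ SL_n(ℚ)` with the block `(0, -1; 1, t)` in the first two
coordinates and `1` elsewhere, `B = ρ - ρ⁻¹` has the block `(-t, -2; 2, t)`, `B² = -κ` on the block, `B³ = -κ B`. With
`R s = 1 + (sin s / √κ) B + ((1 - cos s) / κ) B²`: `R s R s' = R (s + s')` and `R ω = ρ` (`sin ω = √κ / 2`), so `ρ^j = R (j ω)`. `e = x ρ x⁻¹ ∈ H`,
`A = x B x⁻¹`, `g = x R(s) x⁻¹` (determinant `1` as a limit, or `R s = (R(s/2))²`). Given `m`: UG for `x` gives `m'`; PIG gives `r` with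
`ρ^r ≡ 1` modulo `m'` (`S = {p}`), so `ρ^(rj) ≡ 1` (induction on `j`), `e^(rj) ∈ U H {p} false m ε`, and `e^(rj) = x R(rjω) x⁻¹` is close to
`x R(s) x⁻¹` for suitable `j`. CLO. -/
def CIR_stmt : Prop := ∀ n : ℕ, 2 ≤ n → ∀ H : Subgroup (SL n ℚ), MeetsAll H → ∀ p : ℕ, p.Prime →
  ∃ (A : Mat n ℚ) (κ : ℚ), A ≠ 0 ∧ 0 < κ ∧ A * A * A = -κ • A ∧ ∀ s : ℝ, ∃ g ∈ NS ℝ H {p} false,
    (g : Mat n ℝ) = 1 + (Real.sin s / √(κ : ℝ)) • cm ℝ A + ((1 - Real.cos s) / (κ : ℝ)) • cm ℝ (A * A)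

/-- **NI** (medium). From EE, DD, LM, KEY, NG, CIR. `K` from NG, `c`, `θ` from DD with `a = 1/2`. A row of `A` does not vanish on some `e^j c`
(EE); `h = e^j`, `A' = h⁻¹ A h`, `A' c ≠ 0`, `A'³ = -κ A'`. `K` contains the conjugates by `h⁻¹` of the elements of CIR. LM with the elements for
`√κ s a^(ni)`: `Z i → s A'`, so `K ∋ 1 + s v⊗θ` for all real `s`, `v = A'c - θ(A'c) c`. If `v = 0` then `A'c = λc`, `λ³ = -κλ`, `λ = 0`, a contradiction.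
KEY with `φ = θ`. -/
def NI_stmt : Prop := ∀ n : ℕ, 2 ≤ n → ∀ H : Subgroup (SL n ℚ), MeetsAll H → ∀ p : ℕ, p.Prime →
  NS ℝ H {p} false = Set.univ

/-- **TR** (medium). From CLO. `H ∋ u = 1 + v₀⊗φ`, conjugate to `1 + e₀⊗e₁`; `v = k v₀`, `k ≥ 1`, with `v⊗φ` integral; `u^(kN) = 1 + N v⊗φ ∈ H`. `ρ = 1`:
for `‖z‖ < 1` choose `N ≡ z` modulo `p^t` and `N ≡ 0` modulo the largest divisor of `m` prime to `p`. -/
def TR_stmt : Prop := ∀ n : ℕ, 2 ≤ n → ∀ H : Subgroup (SL n ℚ), MeetsAll H → ∀ (p : ℕ) [Fact p.Prime] (S : Set ℕ),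
  p ∈ S → ∃ v φ : Fin n → ℚ, v ≠ 0 ∧ φ ≠ 0 ∧ φ ⬝ᵥ v = 0 ∧ ∃ ρ : ℝ, 0 < ρ ∧ ∀ z : ℚ_[p], ‖z‖ < ρ →
    ∃ g ∈ NS ℚ_[p] H S false, (g : Mat n ℚ_[p]) = 1 + z • rk (cv ℚ_[p] v) (cv ℚ_[p] φ)

/-- **NP** (short). From KEY, NG, TR; `a = p`. -/
def NP_stmt : Prop := ∀ n : ℕ, 2 ≤ n → ∀ H : Subgroup (SL n ℚ), MeetsAll H → ∀ (p : ℕ) [Fact p.Prime] (S : Set ℕ),
  p ∈ S → NS ℚ_[p] H S false = Set.univ

/-- **TRR** (medium, long). From CLO, NI. As TR, but the elements of `H` must be close to `1` at the real place: with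
`u' = 1 + N v⊗φ ∈ H` as in TR (`N ≡ z` modulo `q^t`, `N ≡ 0` modulo the part of `m` prime to `q`), NI and CLO give `w ∈ H`, `w ≡ 1` modulo `m q^T` at
all primes `≠ p`, close to `u'⁻¹` at the real place. `h = w u'`: real: `h - 1 = (w - u'⁻¹) u'`; `q`-adic: `h - u' = (w - 1) u'`, `u'` is integral;
at primes outside `S`: `h - 1 = (w - 1) u' + (u' - 1)`. -/
def TRR_stmt : Prop := ∀ n : ℕ, 2 ≤ n → ∀ H : Subgroup (SL n ℚ), MeetsAll H → ∀ (p q : ℕ) [Fact q.Prime] (S : Set ℕ),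
  p.Prime → q ≠ p → p ∈ S → q ∈ S → ∃ v φ : Fin n → ℚ, v ≠ 0 ∧ φ ≠ 0 ∧ φ ⬝ᵥ v = 0 ∧ ∃ ρ : ℝ, 0 < ρ ∧
    ∀ z : ℚ_[q], ‖z‖ < ρ → ∃ g ∈ NS ℚ_[q] H S true, (g : Mat n ℚ_[q]) = 1 + z • rk (cv ℚ_[q] v) (cv ℚ_[q] φ)

/-- **NQ** (short). From KEY, NG, TRR; `a = q`. -/
def NQ_stmt : Prop := ∀ n : ℕ, 2 ≤ n → ∀ H : Subgroup (SL n ℚ), MeetsAll H → ∀ (p q : ℕ) [Fact q.Prime] (S : Set ℕ),
  p.Prime → q ≠ p → p ∈ S → q ∈ S → NS ℚ_[q] H S true = Set.univ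

/-! ## Part C: conclusion -/

/-- **PRD** (medium, long). From CLO. `Q` = the (finite) set of primes outside `S₀` dividing `m` or the denominator of an entry of `g` or
`g⁻¹`. Induction on `Q' ⊆ Q`: for all `δ > 0` there is `h ∈ H` with `|h - g|_q < δ` for `q ∈ Q'`, the entries of `h` are `q`-integral for all primes
`q ∉ Q' ∪ S₀`, and `|h - g| < δ` at the real place if `b`. `Q' = ∅`: `h = 1`, or the last hypothesis (with `m = 1`) if `b`. Step `Q' ∪ {q}`: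
`h' ∈ H` for `Q'`, then `h₁ ∈ U H (insert q S₀) b M ε'` close to `h'⁻¹ g` at `q`, `M` a high power of the product of `Q'`, `h = h' h₁`: at `q`:
`h - g = h' (h₁ - h'⁻¹ g)`, `h'` is `q`-integral; at `r ∈ Q'` and the real place: `h - g = (h' - g) + h' (h₁ - 1)`. Finally for `Q' = Q`, `γ = h⁻¹ g`:
`γ - 1 = h⁻¹ (g - h) = γ g⁻¹ (g - h)`, so `|γ - 1| ≤ max(1, |γ - 1|) C δ` (real: `≤ C (1 + |γ - 1|) δ`), hence `|γ - 1| ≤ C δ` (real: `2 C δ`) for small `δ`. At the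
other primes `q ∉ S₀`, `h` and `g` are `q`-integral, so is `h⁻¹` (adjugate), and `|m|_q = 1`. -/
def PRD_stmt : Prop := ∀ (n : ℕ) (H : Subgroup (SL n ℚ)) (S₀ : Set ℕ) (b : Bool),
  (∀ (q : ℕ) [Fact q.Prime], q ∉ S₀ → NS ℚ_[q] H (insert q S₀) b = Set.univ) →
  (b = true → NS ℝ H S₀ false = Set.univ) →
  ∀ (g : SL n ℚ) (m : ℕ) (ε : ℚ), 0 < m → 0 < ε → ∃ h ∈ H, Cg S₀ b m ε (h⁻¹ * g)

/-- **IZ** (short). `x = a/b`; if a prime `q ∉ S` divides the denominator of `x / m`, the `q`-adic norm of `x / m` is `> 1`. -/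
def IZ_stmt : Prop := ∀ m : ℕ, 0 < m → ∀ x : ℚ, (Dv ∅ m x → ∃ a : ℤ, x = m * a) ∧
  ∀ p : ℕ, p.Prime → Dv {p} m x → ∃ k : ℕ, ∃ a : ℤ, (p : ℚ) ^ k * x = m * a

/-- **FI** (medium). From TW. `Γ = H ∩ SL_n(ℤ)` has finite index, so `E_ij(M) ∈ H` for all `i ≠ j` for some `M ≥ 1`. Let `p` be a prime, `i ≠ j`,
`d = diag2n hij p`. `d^k = h_k γ_k`; there are `k < k'` with `γ_k' γ_k⁻¹ ∈ Γ`, so `d^(k'-k) = h_k' (γ_k' γ_k⁻¹) h_k⁻¹ ∈ H`. The `x` with `E_ij(x) ∈ H` are a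
subgroup of `ℚ` containing `M` and closed under multiplication by `p^(-2l)`, `l = k' - k ≥ 1`; this for all `p`: it is `ℚ`. TW. -/
def FI_stmt : Prop := ∀ n : ℕ, 2 ≤ n → ∀ H : Subgroup (SL n ℚ),
  (∀ g : SL n ℚ, ∃ h ∈ H, ∃ γ : SL n ℤ, g = h * Matrix.SpecialLinearGroup.map (Int.castRingHom ℚ) γ) →
  (H.comap (Matrix.SpecialLinearGroup.map (Int.castRingHom ℚ) : SL n ℤ →* SL n ℚ)).index ≠ 0 → H = ⊤

/-- **MAIN** (short, medium). From NI, NP, NQ, PRD, IZ, FI. First: PRD with `S₀ = ∅`, `b = false` and NP; `γ = h⁻¹ g` is integral with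
determinant `1`. Second: PRD with `S₀ = {p}`, `b = true`, NQ, NI; the exponent `k` of IZ can be chosen for all entries. Third: FI. -/
def MAIN_stmt : Prop := ∀ n : ℕ, 2 ≤ n → ∀ H : Subgroup (SL n ℚ), MeetsAll H →
  (∀ m : ℕ, 0 < m → ∀ g : SL n ℚ, ∃ h ∈ H, ∃ γ : SL n ℤ,
    (∀ i j, (m : ℤ) ∣ γ i j - (1 : Mat n ℤ) i j) ∧
    g = h * Matrix.SpecialLinearGroup.map (Int.castRingHom ℚ) γ) ∧
  (∀ p : ℕ, p.Prime → ∀ m : ℕ, 0 < m → ∀ ε : ℚ, 0 < ε → ∀ g : SL n ℚ, ∃ h ∈ H, ∃ γ : SL n ℚ,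
    (∃ k : ℕ, ∀ i j, ∃ a : ℤ, (p : ℚ) ^ k * (γ i j - (1 : Mat n ℚ) i j) = m * a) ∧
    (∀ i j, |γ i j - (1 : Mat n ℚ) i j| < ε) ∧ g = h * γ) ∧
  (H ≠ ⊤ → (H.comap (Matrix.SpecialLinearGroup.map (Int.castRingHom ℚ) : SL n ℤ →* SL n ℚ)).index = 0)

end Pool.Agent.ISL
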