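import Pool.Agent.helper24.ISL.Spec
import Pool.Agent.helper48.SLn.Final

/-!
# Subgroups of `SL_n(ℚ)` meeting every conjugacy class: rows, second part (MP_512a69)

GOAL (`EX_stmt`). Let `n ≥ 3` and let `H` be a proper subgroup of `SL_n(ℚ)` meeting every conjugacy class. If
`1 + e ⊗ φ`, `1 + e' ⊗ φ'` are transvections in `H`, not in the same one-parameter group, then the numerator of the rational
number `φ(e') φ'(e)` is at least `5` in absolute value; in particular they do not commute. Proof: by MAIN the group of the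
integral elements of `H`, and of every conjugate of `H` by a rational matrix, is Zariski dense and has infinite index; a
theorem of helper48 (`Pool.Agent.H48SL.final_pairs`) excludes pairs of transvections with small trace.

RULES.  Row `XX`: file `Pool/Agent/<seat>/ISL/XX.lean`, `import Pool.Agent.helper24.ISL.Spec2`, `namespace Pool.Agent.ISL`,
`theorem XX (h1 : YY_stmt) ... : XX_stmt` (only the statements named after `From`, in this order), auxiliary lemmas prefixed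
`XX_`. No `convert`, no `congr!`, no straight double quotes.
-/

set_option autoImplicit false

namespace Pool.Agent.ISL

open Matrix Filter Topology

/-- the integral elements of `H` -/
def HZ {n : ℕ} (H : Subgroup (SL n ℚ)) : Subgroup (SL n ℤ) :=
  H.comap (Matrix.SpecialLinearGroup.map (Int.castRingHom ℚ) : SL n ℤ →* SL n ℚ)

/-- **ZD** (short, medium). Let `γ ∈ SL_n(ℤ)`, `m > 0`; the hypothesis for `g = γ` gives `λ ∈ HZ H` congruent to `γ` modulo `m`. A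
polynomial `P` vanishing on `HZ H` has `P(γ) ≡ P(λ) = 0` modulo `m` (`Pool.Agent.H48SL.eval_cast`) for all `m`, so `P(γ) = 0`. Compare
`Pool.Agent.H48SL.ProfDense.zdense`. -/
def ZD_stmt : Prop := ∀ (n : ℕ) (H : Subgroup (SL n ℚ)),
  (∀ m : ℕ, 0 < m → ∀ g : SL n ℚ, ∃ h ∈ H, ∃ γ : SL n ℤ,
    (∀ i j, (m : ℤ) ∣ γ i j - (1 : Mat n ℤ) i j) ∧
    g = h * Matrix.SpecialLinearGroup.map (Int.castRingHom ℚ) γ) → H48SL.ZDense (HZ H)

/-- **CJ** (short). `H' = {g | X g Y ∈ H}`, the preimage of `H` under the automorphism `g ↦ X g Y` of `SL_n(ℚ)` (`Y X = 1` too). For `g`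
choose `x` with `x (X g Y) x⁻¹ ∈ H`; then `x' = Y x X` has `X (x' g x'⁻¹) Y = x (X g Y) x⁻¹`. -/
def CJ_stmt : Prop := ∀ (n : ℕ) (H : Subgroup (SL n ℚ)) (X Y : Mat n ℚ), X * Y = 1 → MeetsAll H →
  ∃ H' : Subgroup (SL n ℚ), MeetsAll H' ∧ (H' = ⊤ → H = ⊤) ∧
    ∀ g h : SL n ℚ, h ∈ H → (h : Mat n ℚ) = X * (g : Mat n ℚ) * Y → g ∈ H'

/-- **BS** (a basis; medium). `f₀ = e`, `f₁ = e' / φ(e')`, and a basis of `W = ker φ ∩ ker φ'`, of dimension `n - 2` (`φ`, `φ'` are linearly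
independent: `φ(e) = 0 ≠ φ'(e)`, `φ'(e') = 0 ≠ φ(e')`); `ℚⁿ` is the direct sum of `⟨f₀, f₁⟩` and `W`. `X` has these vectors as columns. -/
def BS_stmt : Prop := ∀ n : ℕ, 2 ≤ n → ∀ e φ e' φ' : Fin n → ℚ, φ ⬝ᵥ e = 0 → φ' ⬝ᵥ e' = 0 → φ ⬝ᵥ e' ≠ 0 →
  φ' ⬝ᵥ e ≠ 0 → ∃ X Y : Mat n ℚ, X * Y = 1 ∧ ∃ i₀ i₁ : Fin n, i₀ ≠ i₁ ∧ X *ᵥ Pi.single i₀ 1 = e ∧
    X *ᵥ Pi.single i₁ 1 = (φ ⬝ᵥ e')⁻¹ • e' ∧ φ ᵥ* X = Pi.single i₁ 1 ∧ φ' ᵥ* X = (φ' ⬝ᵥ e) • Pi.single i₀ 1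

/-- **EX** (medium, long). From MAIN, ZD, CJ, BS. `φ(e) = 0`, `φ'(e') = 0` (determinants). Suppose `q = φ(e') φ'(e) = a/b`, `b ≥ 1`, `|a| ≤ 4`. If
`q ≠ 0`: BS gives `X`, `Y`, and `Y (1 + e⊗φ) X = E_(i₀ i₁)(1)`, `Y (1 + b e'⊗φ') X = E_(i₁ i₀)(a)`; `H'` from CJ contains these two integral
transvections, so by `H48SL.final_pairs` (the trace of the product is `n + a`, no two nonzero powers are equal) and ZD and MAIN for `H'`,
`HZ H'` has finite index, `H' = ⊤` by MAIN, `H = ⊤`. If `q = 0`: `N ≥ 1` such that `N e`, `φ`, `N e'`, `φ'` multiplied by suitable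
integers are integral; the integral transvections `(1 + e⊗φ)^M`, `(1 + e'⊗φ')^M` have `trace = n` for their product; `final_pairs` for `HZ H`. -/
def EX_stmt : Prop := ∀ n : ℕ, 3 ≤ n → ∀ H : Subgroup (SL n ℚ), MeetsAll H → H ≠ ⊤ → ∀ e φ e' φ' : Fin n → ℚ,
  InK H (1 + rk e φ) → InK H (1 + rk e' φ') → rk e φ ≠ 0 → (∀ c : ℚ, rk e' φ' ≠ c • rk e φ) →
  5 ≤ |((φ ⬝ᵥ e') * (φ' ⬝ᵥ e)).num|

end Pool.Agent.ISL
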